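import Pool.Agent.TH377.NC.Gen
import Pool.Agent.TH377.LocG.Res
import Pool.Agent.W623.SecF.Kt

/-!
# MP_e66f84_ag: plane curves given by norm forms, over finitely generated fields

Let `k` be a field of characteristic zero with a discrete valuation ring `A` whose residue field `κ` is
arbitrary, for instance, if `k` is finitely generated over `ℚ`, the local ring of a divisor on a scheme
of finite type over `ℤ` with function field `k`, or if `k = K(t)` the local ring of a `K`-rational point
of the line.  We consider the plane curves of degree `d` over `k` of the form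

  `X : N_{E/k}(A₀ x₀ + A₁ x₁ + A₂ x₂) = a Q(x₀, x₁, x₂)ⁿ`,   `A₀, A₁, A₂ ∈ E`,  `a ∈ k`,

where `E/k` is an extension of degree `d` which is unramified over `A`, `n | d`, and `Q` is a form of
degree `d/n` over `k`.  The `d` conjugate lines `σ(A₀) x₀ + σ(A₁) x₁ + σ(A₂) x₂ = 0` meet `X` with
multiplicities divisible by `n`; for instance for `d = 4` and `n = 2` the curve `X` is a plane quartic for
which they are four conjugate bitangents (and over an algebraically closed field every smooth plane
quartic is of this form).  We only assume that `Q` does not vanish at the points of intersection of the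
conjugate lines, which is part of the smoothness of `X`; the coefficients of `A_j` and `Q` may have
arbitrary poles.

Let `E = k(θ)`, where `θ` is a root of a monic polynomial `g ∈ A[T]` which is irreducible over `k` and has a
separable reduction over `κ`.  Let `D ≥ 1` be a divisor of `n` such that the degrees of all irreducible
factors of the reduction of `g` are divisible by `gcd(2, D) D`, and let `m` be the valuation of `a`.  We
prove for ALL finite extensions `L` of `k` and ALL `A_j`, `Q`: if `X` has a point over `L`, or if the
fundamental group of `X_L`, or of one of its open subcurves, or of a smooth curve (or variety) over `L`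
that dominates one of them, has a section over `G_L`, then `D` divides `m [L : k]`.

For `L = k` and `m` not divisible by `D` this says that the section conjecture holds (without points and
sections) for all these curves.  In particular, let `K` be any field of characteristic zero, for instance
one that is finitely generated over `ℚ`, `k = K(t)`, and let `a ∈ K(t)` have a zero or pole of an order
`m` prime to `D` at some `K`-rational point of the line (which a change of the coordinate `t` moves to
`t = 0`), and let `θ` be a root of `g(t, T) ∈ K[t, T]`, monic in `T`, such that `g(0, T) ∈ K[T]` is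
separable with irreducible factors of degrees divisible by `gcd(2, D) D` (for instance `g ∈ K[T]`
irreducible of such a degree).  Then the degrees over `K(t)` of all fields `L` over which there are points
or sections are divisible by `D`.

In `MP_2f3286_ag.NormCurves` and `MP_c1dca2_ag.NormCurvesVaryingFields` the base field is a number
field and 100% of the numbers `a` are treated; here the base field is arbitrary and each single `a` with
`D ∤ m [L : k]`.

The fundamental group is described through valuations.  Let `U` be a smooth geometrically connected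
curve over `k` with function field `F`, let `Ω` be an algebraic closure of `F`, and let `F_U` be the
maximal extension of `F` inside `Ω` which is unramified over the closed points of `U`, that is, over
their local rings, which are valuation rings of `F`.  Then `π₁(U) = Gal(F_U/F)`, and the map
`π₁(U) → G_k` is the restriction of automorphisms to the algebraic closure of `k` in `Ω`.

Proof.  Let `l` be a prime number with `v_l(m [L : k]) < v_l(D)`.  There is a discrete valuation ring of
`L` over `A` with `v_l(e f) ≤ v_l([L : k])` for its ramification index `e` and residue degree `f`; put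
`ℓ = l^(1 + v_l(e m))`, a divisor of `D` and so of `n`.  Then the valuation `e m` of `a` is not divisible by
`ℓ`, and the irreducible factors of `g` over the residue field of this ring have degrees divisible by
`gcd(2, ℓ) ℓ`.  Let `s` be a section over `L`.  For two conjugate linear forms `λ_i`, `λ_j` the function
`λ_i/λ_j` on `X` is an `ℓ`-th power up to units at all places, since at each place all of the `λ_i` but at
most one have the same value, and `∏ λ_i = a Qⁿ`.  So `λ_i/λ_j` has an `ℓ`-th root in `F_U`, and by
Kummer theory it is `c_{ij} β^ℓ` with a constant `c_{ij}` in the extension `S` of `L` generated by the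
roots of `g`, which is unramified at our valuation, and with `β` fixed by `s(G_S)`.  The valuations of the
`c_{ij}` at an extension of our valuation are well-defined modulo `ℓ`, additive, and invariant under its
decomposition group, which is transitive on the roots of `g` that reduce to the roots of an irreducible
factor.  So the sum over `i` of the valuations of the `c_{ij}` is `0` modulo `ℓ`.  But the equation of the
curve shows that it is the valuation `e m` of `a` modulo `ℓ`, a contradiction.
-/

set_option autoImplicit false
set_option maxHeartbeats 400000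

namespace Pool.Agent.Results.MP_e66f84_ag.NormCurvesAnyField

universe u v w x y z

section definitions

variable (k : Type u) (F : Type v) (Ω : Type w) [Field k] [Field F] [Field Ω] [Algebra k F]
  [Algebra F Ω] [Algebra k Ω]

/-- The inertia group of the valuation ring `W` of `Ω`, as a subgroup of `Gal(Ω/F)`: the
automorphisms of `Ω` over `F` that map `W` onto itself and act as the identity on its residue
field. -/
noncomputable def inertia (W : ValuationSubring Ω) : Subgroup (Ω ≃ₐ[F] Ω) :=
  (W.inertiaSubgroup F).map (W.decompositionSubgroup F).subtype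

/-- `F_U`, for a set `U` of valuation rings of `F`: the elements of `Ω` fixed by the inertia groups
of all valuation rings `W` of `Ω` with `W ∩ F ∈ U`.  If `Ω` is an algebraic closure of a field `F`
of characteristic zero, this is the maximal extension of `F` in `Ω` unramified over `U`. -/
noncomputable def unramified (U : Set (ValuationSubring F)) : IntermediateField F Ω :=
  ⨅ W : {W : ValuationSubring Ω // W.comap (algebraMap F Ω) ∈ U},
    IntermediateField.fixedField (inertia F Ω W.1)

/-- The map `τ : M → M` acts as `σ : K → K` on the elements that the fields `K` and `M` have in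
common when they are regarded as subfields of `Ω` through `i` and `j`. -/
def ActsAs {K M Ω : Type*} [Field K] [Field M] [Field Ω] (i : K →+* Ω) (j : M →+* Ω) (σ : K → K)
    (τ : M → M) : Prop :=
  ∀ c z, j z = i c → j (τ z) = i (σ c)

/-- Let `k ⊆ K ⊆ Ω` and `F ⊆ M ⊆ Ω` be fields.  A splitting of `Gal(M/F) → Gal(K/k)`: a continuous
homomorphism `s` from `Gal(K/k)` to `Gal(M/F)` such that `s(σ)` acts as `σ` on the elements of
`K ∩ M`. -/
structure Splitting (K M : Type*) [Field K] [Field M] [Algebra k K] [Algebra F M] [Algebra K Ω]
    [Algebra M Ω] where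
  /-- the homomorphism `Gal(K/k) → Gal(M/F)` -/
  toHom : (K ≃ₐ[k] K) →* (M ≃ₐ[F] M)
  cont : Continuous toHom
  compat : ∀ σ : K ≃ₐ[k] K, ActsAs (algebraMap K Ω) (algebraMap M Ω) σ (toHom σ)

/-- The sections of `π₁(U) = Gal(F_U/F) → G_k`: the continuous homomorphisms `s` from
`G_k = Gal(k̄/k)` to `Gal(F_U/F)`, where `k̄` is the algebraic closure of `k` in `Ω`, such that
`s(σ)` acts as `σ` on the elements of `k̄`. -/
def GaloisSection (U : Set (ValuationSubring F)) : Type w :=
  Splitting k F Ω (algebraicClosure k Ω) (unramified F Ω U)

end definitions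

section curve

variable {K : Type u} {E : Type x} [Field K] [Field E] [Algebra K E] [FiniteDimensional K E]

/-- The equation `N_{E/K}(A₀ x₀ + A₁ x₁ + A₂ x₂) = a Q(x₀, x₁, x₂)ⁿ` at a vector with entries in an
algebraically closed field `Ω` over `K`: the norm is the product over the embeddings `σ` of `E` into
`Ω` of the `σ(A₀) x₀ + σ(A₁) x₁ + σ(A₂) x₂`. -/
def OnCurve {Ω : Type*} [Field Ω] [Algebra K Ω] (A : Fin 3 → E) (a : K)
    (Q : MvPolynomial (Fin 3) K) (n : ℕ) (x : Fin 3 → Ω) : Prop :=
  ∏ σ : E →ₐ[K] Ω, ∑ j, σ (A j) * x j = algebraMap K Ω a * MvPolynomial.aeval x Q ^ n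

/-- The form `Q` does not vanish at the points of intersection of two conjugate lines
`σ(A₀) x₀ + σ(A₁) x₁ + σ(A₂) x₂ = 0`.  (In particular these lines are different.) -/
def Transversal (A : Fin 3 → E) (Q : MvPolynomial (Fin 3) K) : Prop :=
  ∀ σ τ : E →ₐ[K] AlgebraicClosure K, σ ≠ τ →
    MvPolynomial.aeval (crossProduct (fun j => σ (A j)) (fun j => τ (A j))) Q ≠ 0

/-- The curve has no point over `L`. -/
def NoPoint (L : Type y) [Field L] [Algebra K L] (A : Fin 3 → E) (a : K)
    (Q : MvPolynomial (Fin 3) K) (n : ℕ) : Prop :=
  ∀ x : Fin 3 → L, x ≠ 0 → ¬ OnCurve A a Q n fun j => algebraMap L (AlgebraicClosure L) (x j)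

/-- Let `F` be any field over `L` that contains a point of the curve, for instance the function field
of the curve over `L`, and let `Ω` be an algebraic closure of `F`.  Then for every set `U` of
valuation rings of `F` over `L` there is no section of `π₁(U) → G_L`.  If `F` is the function field of
the curve, such `U` are given by its normalisation and by all its open subcurves. -/
def NoSection (L : Type y) [Field L] [Algebra K L] (A : Fin 3 → E) (a : K)
    (Q : MvPolynomial (Fin 3) K) (n : ℕ) : Prop :=
  ∀ (F : Type v) (Ω : Type w) [Field F] [Field Ω] [Algebra L F] [Algebra F Ω] [Algebra L Ω]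
    [Algebra K Ω] [IsScalarTower L F Ω] [IsScalarTower K L Ω] [IsAlgClosure F Ω] (x : Fin 3 → F)
    (U : Set (ValuationSubring F)), x ≠ 0 → OnCurve A a Q n (fun j => algebraMap F Ω (x j)) →
      (∀ O ∈ U, ∀ c : L, algebraMap L F c ∈ O) → IsEmpty (GaloisSection L F Ω U)

end curve

/-- The degrees of all irreducible factors of `P` are divisible by `N`. -/
def FactorsDivisible {κ : Type z} [Field κ] (N : ℕ) (P : Polynomial κ) : Prop :=
  ∀ h : Polynomial κ, Irreducible h → h ∣ P → N ∣ h.natDegree

/-- `θ` generates `E` over `k` and is a root of the irreducible polynomial `G`. -/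
def GeneratedByRoot {k : Type u} {E : Type x} [Field k] [Field E] [Algebra k E]
    (G : Polynomial k) (θ : E) : Prop :=
  Irreducible G ∧ Algebra.adjoin k {θ} = ⊤ ∧ Polynomial.aeval θ G = 0

/-- The valuation of `a` at the discrete valuation ring `A` is `m`: `a` is the product of a unit and of
the power with the exponent `m` of a uniformiser. -/
def HasValue {k : Type u} [Field k] (A : ValuationSubring k) (m : ℤ) (a : k) : Prop :=
  ∃ ϖ t : A, Irreducible ϖ ∧ IsUnit t ∧ a = (t : k) * (ϖ : k) ^ m

/-- `a = t^m p(t)/q(t)` with `p(0), q(0) ≠ 0`: a rational function in `t` of order `m` at the point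
`t = 0`. -/
def HasOrder (K : Type z) {k : Type u} [Field K] [Field k] [Algebra K k] (t : k) (m : ℤ)
    (a : k) : Prop :=
  ∃ p q : Polynomial K, p.eval 0 ≠ 0 ∧ q.eval 0 ≠ 0 ∧
    a = t ^ m * (Polynomial.aeval t p / Polynomial.aeval t q)

/-- All the assertions for the extension `E/k`, the numbers `D`, `d`, `a` and the value `m` of `a`: for
all finite extensions `L` of `k` such that `D` does not divide `m [L : k]`, all `n | d` divisible by `D`,
all `A₀, A₁, A₂ ∈ E` and all forms `Q` of degree `d/n` over `k` that do not vanish at the points of
intersection of the conjugate lines, the curve `N_{E/k}(A₀ x₀ + A₁ x₁ + A₂ x₂) = a Qⁿ` has no point and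
no section over `L`. -/
def NothingOver {k : Type u} (E : Type x) [Field k] [Field E] [Algebra k E] [FiniteDimensional k E]
    (D d : ℕ) (a : k) (m : ℤ) : Prop :=
  ∀ (L : Type y) [Field L] [Algebra k L] [FiniteDimensional k L],
    ¬ (D : ℤ) ∣ m * (Module.finrank k L : ℤ) → ∀ n q : ℕ, D ∣ n → n * q = d →
      ∀ (A : Fin 3 → E) (Q : MvPolynomial (Fin 3) k), Q.IsHomogeneous q → Transversal A Q →
        NoPoint L A a Q n ∧ NoSection.{u, v, w} L A a Q n

/-- (1) `A` is a discrete valuation ring of `k` whose residue field `κ` is arbitrary, `g ∈ A[T]` is monic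
with a separable reduction whose irreducible factors have degrees divisible by `gcd(2, D) D`, `E = k(θ)`
is generated by a root of `g`, and `m` is the valuation of `a`. -/
def LocalStatement : Prop :=
  ∀ (k : Type u) [Field k] [CharZero k] (A : ValuationSubring k) [IsDiscreteValuationRing A]
    (κ : Type z) [Field κ] (ρ : A →+* κ), Function.Surjective ρ → ∀ g : Polynomial A, g.Monic →
    (g.map ρ).Separable → ∀ (E : Type x) [Field E] [Algebra k E] [FiniteDimensional k E] (θ : E),
    GeneratedByRoot (g.map (algebraMap A k)) θ → ∀ D : ℕ, D ≠ 0 →
    FactorsDivisible (Nat.gcd 2 D * D) (g.map ρ) → ∀ (a : k) (m : ℤ), HasValue A m a →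
    NothingOver.{u, v, w, x, y} E D g.natDegree a m

/-- (2) `k = K(t)` is a rational function field, `K` any field of characteristic zero, `g ∈ K[t][T]` is
monic, `g(0, T)` is separable and its irreducible factors over `K` have degrees divisible by
`gcd(2, D) D`, `E = k(θ)` is generated by a root of `g`, and `m` is the order of `a` at `t = 0`. -/
def FunctionFieldStatement : Prop :=
  ∀ (K : Type z) [Field K] [CharZero K] (k : Type u) [Field k] [Algebra K k] (t : k),
    Transcendental K t → IntermediateField.adjoin K {t} = (⊤ : IntermediateField K k) →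
    ∀ g : Polynomial (Polynomial K), g.Monic → (g.map (Polynomial.evalRingHom 0)).Separable →
    ∀ (E : Type x) [Field E] [Algebra k E] [FiniteDimensional k E] (θ : E),
    GeneratedByRoot (g.map (Polynomial.aeval t : Polynomial K →ₐ[K] k).toRingHom) θ →
    ∀ D : ℕ, D ≠ 0 → FactorsDivisible (Nat.gcd 2 D * D) (g.map (Polynomial.evalRingHom 0)) →
    ∀ (a : k) (m : ℤ), HasOrder K t m a → NothingOver.{u, v, w, x, y} E D g.natDegree a m

section proof

open Pool.Agent.TH377.NC Polynomial

lemma toSec {k : Type u} {F : Type v} {Ω : Type w} [Field k] [Field F] [Field Ω] [Algebra k F]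
    [Algebra F Ω] [Algebra k Ω] (U : Set (ValuationSubring F))
    (h : IsEmpty (Pool.Agent.W620.SC.GSection k F Ω U)) : IsEmpty (GaloisSection k F Ω U) :=
  ⟨fun s => h.false ⟨s.toHom, s.cont, s.compat⟩⟩

/-- a power basis given by a root -/
theorem pb_of_root {k : Type u} [Field k] {E : Type x} [Field E] [Algebra k E]
    [FiniteDimensional k E] (θ : E) (G : k[X]) (hG : G.Monic) (h : GeneratedByRoot G θ) :
    ∃ pb : PowerBasis k E, G = minpoly k pb.gen ∧ G.natDegree = Module.finrank k E := by
  obtain ⟨h1, h2, h3⟩ := h
  have hint : IsIntegral k θ := Algebra.IsIntegral.isIntegral θ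
  have h4 := minpoly.eq_of_irreducible_of_monic h1 h3 hG
  refine ⟨PowerBasis.ofAdjoinEqTop hint h2, ?_, ?_⟩
  · rw [PowerBasis.ofAdjoinEqTop_gen, ← h4]
  · rw [(PowerBasis.ofAdjoinEqTop hint h2).finrank, PowerBasis.ofAdjoinEqTop_dim, ← h4]

/-- (1), the local statement -/
theorem local_statement : LocalStatement.{u, v, w, x, y, z} := by
  intro k _ _ A _ κ _ ρ hρ g hg hs E _ _ _ θ hθ D hD hσ a m ⟨ϖ, t, hϖ, ht, hat⟩ L _ _ _ hL n q hDn
    hnq B Q hQ htr
  obtain ⟨pb, hpb, hfin⟩ := pb_of_root θ _ (hg.map _) hθ
  have htr' : ∀ σ τ : E →ₐ[k] AlgebraicClosure k, σ ≠ τ →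
      MvPolynomial.aeval (crossProduct (fun j => σ (B j)) (fun j => τ (B j))) Q ≠ 0 := htr
  have hat' : a = algebraMap A k t * algebraMap A k ϖ ^ m := hat
  have hdeg : n * q = Module.finrank k E := by
    rw [hnq, ← hfin, hg.natDegree_map]
  obtain ⟨key1, key2⟩ := gen_both (K := k) (L := L) D hD pb g hg hpb
    (Pool.Agent.TH377.LocG.separable_residue ρ hρ g hs)
    (Pool.Agent.TH377.LocG.factorDiv_residue ρ hρ _ g hσ) ϖ t hϖ ht m hL a hat' n q hDn hdeg B Q hQ
    htr'
  refine ⟨fun x hx hon => key1 x hx hon, ?_⟩
  intro F Ω _ _ _ _ _ _ _ _ _ x U hx hon hU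
  exact toSec U (key2 F Ω x U hx hon hU)

/-- (2), rational function fields -/
theorem function_field_statement : FunctionFieldStatement.{u, v, w, x, y, z} := by
  intro K _ _ k _ _ t ht htop g hg hs E _ _ _ θ hθ D hD hσ a m ⟨p, q, hp, hq, ha⟩
  have hcz : CharZero k := charZero_of_injective_algebraMap (algebraMap K k).injective
  obtain ⟨A, hA, ρ, j, hρ, hρi, hi, hX, hunit⟩ := Pool.Agent.W623.SecF.exists_dvr t ht htop
  have e1 : ρ.comp j = evalRingHom 0 := RingHom.ext fun c => hρi c
  have e2 : (algebraMap A k).comp j = (aeval t : K[X] →ₐ[K] k).toRingHom :=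
    RingHom.ext fun c => hi c
  have e3 : (g.map j).map ρ = g.map (evalRingHom 0) := by
    rw [Polynomial.map_map, e1]
  have e4 : (g.map j).map (algebraMap A k) = g.map (aeval t : K[X] →ₐ[K] k).toRingHom := by
    rw [Polynomial.map_map, e2]
  obtain ⟨v, hv⟩ := hunit q hq
  have ha' : HasValue A m a := by
    refine ⟨j X, j p * ((v⁻¹ : Aˣ) : A), hX, (hunit p hp).mul (Units.isUnit _), ?_⟩
    have h1 : ((j X : A) : k) = t := by rw [hi, aeval_X]
    have h2 : (((v⁻¹ : Aˣ) : A) : k) = (aeval t q)⁻¹ := by
      have h3 : ((v : A) : k) * (((v⁻¹ : Aˣ) : A) : k) = 1 := by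
        have h4 := v.mul_inv
        exact_mod_cast congrArg (fun z : A => (z : k)) h4
      rw [hv, hi] at h3
      exact eq_inv_of_mul_eq_one_right h3
    have h5 : ((j p * ((v⁻¹ : Aˣ) : A) : A) : k) = aeval t p / aeval t q := by
      change ((j p : A) : k) * (((v⁻¹ : Aˣ) : A) : k) = _
      rw [hi, h2, div_eq_mul_inv]
    rw [h5, h1, ha, mul_comm]
  have h6 := local_statement.{u, v, w, x, y, z} k A K ρ hρ (g.map j) (hg.map j) (by rwa [e3]) E θ
    (by rwa [e4]) D hD (by rwa [e3]) a m ha'
  rwa [hg.natDegree_map] at h6

end proof

/-- (1) Let `k` be a field of characteristic zero and `A` a discrete valuation ring of `k` with an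
arbitrary residue field.  Let `g ∈ A[T]` be monic with a separable reduction, irreducible over `k`, and
`E = k(θ)` with a root `θ` of `g`.  Let `D ≥ 1` be such that the degrees of all irreducible factors of the
reduction of `g` are divisible by `gcd(2, D) D`, and let `a ∈ k` have the valuation `m`.  Then for all
finite extensions `L` of `k` such that `D` does not divide `m [L : k]`, all `n | [E : k]` divisible by `D`,
all `A₀, A₁, A₂ ∈ E` and all forms `Q` of degree `[E : k]/n` over `k` that do not vanish at the points of
intersection of the conjugate lines, the plane curve `N_{E/k}(A₀ x₀ + A₁ x₁ + A₂ x₂) = a Qⁿ` has no point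
over `L`, and the fundamental groups of its open subcurves over `L` and of all smooth curves over `L`
that dominate it have no sections over `G_L`.  (2) The same is true for `k = K(t)`, `K` any field of
characteristic zero, `g ∈ K[t][T]` monic such that `g(0, T)` is separable with irreducible factors of
degrees divisible by `gcd(2, D) D`, and `a ∈ K(t)` of order `m` at `t = 0`. -/
theorem result : LocalStatement.{u, v, w, x, y, z} ∧ FunctionFieldStatement.{u, v, w, x, y, z} :=
  ⟨local_statement, function_field_statement⟩

end Pool.Agent.Results.MP_e66f84_ag.NormCurvesAnyField
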