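import Pool.Agent.W262.G3.Fin2
import Pool.Agent.W623.SecG.Loc2
import Pool.Agent.TH213.SEL.Transp
import Pool.Agent.TH213.SEL.LocGlob
import Pool.Agent.TH213.SEL.Fin24

/-!
# Locally geometric sections for almost all quadratic twists of a hyperelliptic curve

Let `N ≥ 6` be even and let `e_1, …, e_N` be different integers.  For squarefree `d` let `C_d` be the
curve `d y² = ∏ (x - e_i)`, with function field `F = ℚ(x, y)` and with the rational points
`P_i = (e_i, 0)`.  Suppose that for every `i` four of the numbers `1 / (e_l - e_i)`, `l ≠ i`, form an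
arithmetic progression (and the condition `CrossRatio` below).  This is so for
`0, 6, 10, 15, 30, -30`, and then the genus is `2`.

We prove: for all squarefree `d`, `|d| ≤ X`, with at most `C X (log X)^(-1/5)` exceptions, every
section of `π₁(U) → G_ℚ`, where `U` is `C_d` or an open subcurve, which is given over the completions
of `ℚ` at the finite places by local points, has all these local points equal to one and the same
rational point, which is one of the `P_i`.  We use that the Tate-Shafarevich group of one elliptic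
curve over `ℚ` of conductor 24 is killed by a positive integer; this is a theorem of Kolyvagin, the
`L`-series of the curve does not vanish at `1`.

The fundamental group is described through valuations.  Let `U` be a smooth geometrically connected
curve over `k` with function field `F`, let `Ω` be an algebraic closure of `F`, and let `F_U` be the
maximal extension of `F` inside `Ω` which is unramified over the closed points of `U`, that is, over
their local rings, which are valuation rings of `F`.  Then `π₁(U) = Gal(F_U/F)`, and the map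
`π₁(U) → G_k` is the restriction of automorphisms to the algebraic closure of `k` in `Ω`.

Proof.  By a theorem of the starting library (helper623, helper262), for almost all `d` every section
has modulo 2 the type of one branch point `P_i`: the functions
`(x - e_l) (x - e_m) (e_i - e_l) (e_i - e_m)`, `l, m ≠ i`, have square roots in `F_U` which are fixed
by the section.  For four indices `l` as above these square roots give a point, over the fixed field
of the section, of the elliptic curve `w² = u (u - 1) (u - 2) (u - 3)`, which does not depend on `d`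
or `i`; it is isomorphic to `E : Y² = X³ - 351 X + 1890`.  By Fermat's theorem on four squares in
arithmetic progression `E(ℚ)` is finite.  So by the theory of helper954 the values of `u` at all the
local points are one rational number or `∞`.  If it were a rational number `u₀`, then the numbers
`u₀ (u₀ - j)` would be squares in all completions, so squares, and by Fermat's theorem again one of
the `u₀ - j` is zero; the local points are then a branch point `P_l` with `l ≠ i`, and this
contradicts `CrossRatio`.  So `u = ∞`, and the local points are `P_i`.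
-/

set_option autoImplicit false

open IsDedekindDomain NumberField Pool.Agent.W620.SC Pool.Agent.TH954

namespace Pool.Agent.Results.MP_e66f84_ag.SelmerSectionsOfTwists

section definitions

/-- For every finite place `v` of the number field `k` a place of `M` over `k` with values in an
algebraic closure of the completion of `k` at `v`. -/
def Places (k M : Type) [Field k] [NumberField k] [Field M] [Algebra k M] : Type :=
  ∀ v : HeightOneSpectrum (𝓞 k), Plc k M (AlgebraicClosure (v.adicCompletion k))

variable {k F M B : Type} [Field k] [NumberField k] [Field F] [Field M] [Field B] [Algebra F M]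
  [Algebra k M] [Algebra k B]

/-- The section `s` of `Gal(M/F) → G_k` is given over the completion of `k` at every finite place by
the local point `p v`: whenever `σ` in the absolute Galois group of the completion and `g` in the one
of `k` are compatible, the place `p v` turns the action of `s g` into the one of `σ`. -/
def IsGivenBy (s : GalSection k F M B) (p : Places k M) : Prop :=
  ∀ v : HeightOneSpectrum (𝓞 k), s.GivenBy (v.adicCompletion k) (p v)

/-- The function `f` has the value `0` at all the local points. -/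
def VanishesAt (p : Places k M) (f : F) : Prop :=
  ∀ v : HeightOneSpectrum (𝓞 k), (p v).val (algebraMap F M f) 0

end definitions

/-- Let `F` be the function field of the curve `d y² = ∏ (x - e_i)` over `ℚ` and `Ω` an algebraic
closure of `F`.  For every set `U` of valuation rings of `F` over `ℚ`, `M` the extension `F_U` of `F`
inside `Ω`, every section of `π₁(U) = Gal(M/F) → G_ℚ` which is given at all finite places by local
points has all its local points equal to the rational point `(e_i, 0)`, for exactly one `i`. -/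
def LocalPointsAreRational {K : Type} [Fintype K] (e : K → ℤ) (d : ℤ) : Prop :=
  ∀ (F Ω M B : Type) [Field F] [Field Ω] [Field M] [Field B] [Algebra ℚ F] [Algebra F Ω]
    [Algebra ℚ Ω] [Algebra F M] [Algebra ℚ M] [Algebra ℚ B] [IsScalarTower ℚ F Ω]
    [IsScalarTower ℚ F M] [IsAlgClosure F Ω] [IsAlgClosure ℚ B] (x y : F)
    (U : Set (ValuationSubring F)) (ι : M →ₐ[F] Ω),
    (∀ O ∈ U, ∀ c : ℚ, algebraMap ℚ F c ∈ O) → ι.fieldRange = unramified F Ω U →
    Transcendental ℚ x → (d : F) * y ^ 2 = ∏ i, (x - (e i : F)) →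
    ∀ (s : GalSection ℚ F M B) (p : Places ℚ M), IsGivenBy s p →
      ∃! i, VanishesAt p (x - algebraMap ℚ F (e i))

/-- The condition on the branch points: for `i ≠ k` there are `l, l'` different from `i` and `k`, such
that the integer `(e_i - e_l) (e_i - e_l') (e_k - e_l) (e_k - e_l')` is not a square. -/
def CrossRatio {K : Type} (e : K → ℤ) : Prop :=
  ∀ i k, i ≠ k → ∃ l l', l ≠ i ∧ l ≠ k ∧ l' ≠ i ∧ l' ≠ k ∧
    ¬ IsSquare ((e i - e l) * (e i - e l') * ((e k - e l) * (e k - e l')))

/-- For every `i`, four of the numbers `1 / (e_l - e_i)`, `l ≠ i`, form an arithmetic progression. -/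
def Progressions {K : Type} (e : K → ℤ) : Prop :=
  ∀ i, ∃ (l : Fin 4 → K) (z δ : ℚ), δ ≠ 0 ∧ (∀ j, l j ≠ i) ∧
    ∀ j : Fin 4, ((e (l j) : ℚ) - e i)⁻¹ = z + (j : ℕ) * δ

/-- the six branch points of the example -/
def ex : Fin 6 → ℤ := ![0, 6, 10, 15, 30, -30]

/-- the general form of the last step, over a number field -/
theorem local_points_gen {k F Ω M B : Type} [Field k] [NumberField k] [Field F] [Field Ω] [Field M]
    [Field B] [Algebra k F] [Algebra F Ω] [Algebra k Ω] [Algebra F M] [Algebra k M] [Algebra k B]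
    [IsScalarTower k F Ω] [IsScalarTower k F M] [IsAlgClosure F Ω] [IsAlgClosure k B]
    [IsAlgClosed Ω] [Algebra.IsAlgebraic F Ω] {K : Type}
    (hsq : ∀ N : k, (∀ v : HeightOneSpectrum (𝓞 k),
      IsSquare (algebraMap k (v.adicCompletion k) N)) → IsSquare N)
    (hferm : ∀ P : k, P ≠ 0 → P - 1 ≠ 0 → P - 2 ≠ 0 → P - 3 ≠ 0 → IsSquare (P * (P - 1)) →
      IsSquare (P * (P - 2)) → IsSquare (P * (P - 3)) → False)
    (hfin : Finite (Pool.Agent.TH942.sw (-351) (1890 : k)).toAffine.Point) (M₀ : ℕ) (hM₀ : 1 ≤ M₀)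
    (hSha : ShaKilledBy (Pool.Agent.TH942.sw (-351) (1890 : k)) M₀)
    (U : Set (ValuationSubring F)) (hU : ∀ O ∈ U, ∀ c : k, algebraMap k F c ∈ O)
    (ι : M →ₐ[F] Ω) (hι : ι.fieldRange = unramified F Ω U)
    (s : GalSection k F M B) (p : Places k M) (hp : IsGivenBy s p)
    (E : K → k) (hinj : Function.Injective E) (x : F) (hx : ∀ c : k, x ≠ algebraMap k F c) (i : K)
    (hAt : ∀ l l', l ≠ i → l' ≠ i → ∃ γ : unramified F Ω U,
      (∀ g, (Pool.Agent.TH213.SEL.ofGal ι hι s).toHom g γ = γ) ∧
      (γ : Ω) ^ 2 = algebraMap F Ω ((x - algebraMap k F (E l)) * (x - algebraMap k F (E l')) *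
        algebraMap k F ((E i - E l) * (E i - E l'))))
    (hCR : ∀ j, j ≠ i → ∃ l l', l ≠ i ∧ l ≠ j ∧ l' ≠ i ∧ l' ≠ j ∧
      ¬ IsSquare ((E i - E l) * (E i - E l') * ((E j - E l) * (E j - E l'))))
    (l : Fin 4 → K) (hl : ∀ j, l j ≠ i) (z δ : k) (hδ : δ ≠ 0)
    (hAP : ∀ j : Fin 4, (E (l j) - E i)⁻¹ = z + (j : ℕ) * δ) :
    VanishesAt p (x - algebraMap k F (E i)) := by
  intro v
  have h := Pool.Agent.TH213.SEL.sel_main (F := F) (Ω := Ω) (M := M)
    (B := B) (K := K) hsq hferm hfin hM₀ hSha U hU ι hι.symm.le hι.le s p hp E hinj x hx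
    i ?_ hCR l hl z δ hδ hAP v
  · rw [map_sub, ← IsScalarTower.algebraMap_apply]
    exact h
  · intro m m' h1 h2
    obtain ⟨γ, h3, h4⟩ := hAt m m' h1 h2
    refine ⟨Pool.Agent.TH213.SEL.phi ι hι γ, Pool.Agent.TH213.SEL.fixed_of_ofGal ι hι s h3, ?_⟩
    rw [IsScalarTower.algebraMap_apply k F M (E m),
      IsScalarTower.algebraMap_apply k F M (E m'),
      IsScalarTower.algebraMap_apply k F M ((E i - E m) * (E i - E m')),
      ← map_sub, ← map_sub, ← map_mul, ← map_mul]
    apply ι.injective
    change ι (Pool.Agent.TH213.SEL.phi ι hι γ ^ 2) = ι (algebraMap F M _)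
    rw [map_pow, Pool.Agent.TH213.SEL.e_phi, h4, ι.commutes]

/-- the values of `x` at the local points are unique -/
theorem unique_gen {k F M : Type} [Field k] [NumberField k] [Field F] [Field M] [Algebra k F]
    [Algebra F M] [Algebra k M] [IsScalarTower k F M] [Nonempty (HeightOneSpectrum (𝓞 k))]
    {p : Places k M} {x : F} {a b : k}
    (h1 : VanishesAt p (x - algebraMap k F a)) (h2 : VanishesAt p (x - algebraMap k F b)) :
    a = b := by
  obtain ⟨v⟩ := ‹Nonempty (HeightOneSpectrum (𝓞 k))›
  have h3 := (h2 v).sub (h1 v)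
  rw [← map_sub, sub_zero] at h3
  have e1 : x - algebraMap k F b - (x - algebraMap k F a) = algebraMap k F (a - b) := by
    rw [map_sub]
    ring
  rw [e1, ← IsScalarTower.algebraMap_apply] at h3
  have h4 := (Plc.val_alg (pl := p v) (a - b)).unique h3
  rw [map_eq_zero, sub_eq_zero] at h4
  exact h4

theorem local_points (M₀ : ℕ) (hM₀ : 1 ≤ M₀)
    (hSha : ShaKilledBy (Pool.Agent.TH942.sw (-351) (1890 : ℚ)) M₀)
    {K : Type} [Fintype K] {e : K → ℤ} (he : Function.Injective e)
    (hCR : CrossRatio e) (hPr : Progressions e) {d : ℤ}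
    (hbad : ¬ Pool.Agent.W623.SecG.Bad2.{0, 0} e d) : LocalPointsAreRational e d := by
  classical
  intro F Ω M B _ _ _ _ _ _ _ _ _ _ _ _ _ _ x y U ι hU hι hx hxy s p hp
  have hcl : IsAlgClosed Ω := IsAlgClosure.isAlgClosed F
  have halg : Algebra.IsAlgebraic F Ω := IsAlgClosure.isAlgebraic
  set G : GSection ℚ F Ω U := Pool.Agent.TH213.SEL.ofGal ι hι s with hG
  obtain ⟨i, hi⟩ : ∃ i, Pool.Agent.W623.SecG.At G x e i := by
    by_contra hno
    push Not at hno
    exact hbad ⟨F, Ω, inferInstance, inferInstance, inferInstance, inferInstance, inferInstance,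
      inferInstance, hcl, halg, U, G, x, y, hU, hx, hxy, hno⟩
  have hE : Function.Injective (fun k : K => (e k : ℚ)) := by
    intro a b h
    have h' : (e a : ℚ) = (e b : ℚ) := h
    exact he (by exact_mod_cast h')
  obtain ⟨l, z, δ, hδ, hl, hAP⟩ := hPr i
  have hne : Nonempty (HeightOneSpectrum (𝓞 ℚ)) :=
    ⟨Rat.HeightOneSpectrum.primesEquiv.symm ⟨2, Nat.prime_two⟩⟩
  have h1 : VanishesAt p (x - algebraMap ℚ F (e i)) := by
    refine local_points_gen Pool.Agent.TH213.SEL.sq_rat Pool.Agent.TH213.SEL.ferm_rat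
      Pool.Agent.TH213.SEL.finite24 M₀ hM₀ hSha U hU ι hι s p hp (fun k => (e k : ℚ)) hE x
      (fun c hc => hx (by rw [hc]; exact isAlgebraic_algebraMap c)) i ?_ ?_ l hl z δ hδ hAP
    · intro m m' h1 h2
      obtain ⟨γ, h3, h4⟩ := hi m m' h1 h2
      refine ⟨γ, h3, ?_⟩
      rw [h4]
      congr 1
      simp only [map_mul, map_sub, map_intCast]
      push_cast
      ring
    · intro j hj
      obtain ⟨m, m', h1, h2, h3, h4, h5⟩ := hCR i j (Ne.symm hj)
      refine ⟨m, m', h1, h2, h3, h4, fun h6 => h5 ?_⟩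
      have h7 : ((e i : ℚ) - e m) * (e i - e m') * ((e j - e m) * (e j - e m')) =
          (((e i - e m) * (e i - e m') * ((e j - e m) * (e j - e m')) : ℤ) : ℚ) := by
        push_cast
        ring
      beta_reduce at h6
      rw [h7, Rat.isSquare_intCast_iff] at h6
      exact h6
  refine ⟨i, h1, fun i' hi' => he ?_⟩
  have h2 : (e i' : ℚ) = e i := unique_gen hi' h1
  exact_mod_cast h2

lemma not_sq_mod {N : ℤ} (h : N % 7 = 3 ∨ N % 7 = 5 ∨ N % 7 = 6) : ¬ IsSquare N := by
  rintro ⟨r, rfl⟩
  have h1 : r % 7 = 0 ∨ r % 7 = 1 ∨ r % 7 = 2 ∨ r % 7 = 3 ∨ r % 7 = 4 ∨ r % 7 = 5 ∨ r % 7 = 6 := by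
    omega
  rcases h1 with h1 | h1 | h1 | h1 | h1 | h1 | h1 <;>
    rw [Int.mul_emod, h1] at h <;> revert h <;> decide

/-- witnesses for `CrossRatio` -/
def wit : Fin 6 → Fin 6 → Fin 6 × Fin 6 :=
  ![![(0, 0), (2, 3), (1, 3), (1, 2), (1, 5), (1, 2)], ![(2, 3), (0, 0), (0, 3), (0, 2), (0, 2), (0, 2)],
    ![(1, 3), (0, 3), (0, 0), (0, 1), (0, 3), (0, 1)], ![(1, 2), (0, 2), (0, 1), (0, 0), (0, 1), (0, 4)],
    ![(1, 5), (0, 2), (0, 3), (0, 1), (0, 0), (0, 1)], ![(1, 2), (0, 2), (0, 1), (0, 4), (0, 1), (0, 0)]]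

lemma crossRatio_ex : CrossRatio ex := by
  have h : ∀ i k : Fin 6, i ≠ k → (wit i k).1 ≠ i ∧ (wit i k).1 ≠ k ∧ (wit i k).2 ≠ i ∧
      (wit i k).2 ≠ k ∧
      (((ex i - ex (wit i k).1) * (ex i - ex (wit i k).2) *
        ((ex k - ex (wit i k).1) * (ex k - ex (wit i k).2))) % 7 = 3 ∨
      ((ex i - ex (wit i k).1) * (ex i - ex (wit i k).2) *
        ((ex k - ex (wit i k).1) * (ex k - ex (wit i k).2))) % 7 = 5 ∨
      ((ex i - ex (wit i k).1) * (ex i - ex (wit i k).2) *
        ((ex k - ex (wit i k).1) * (ex k - ex (wit i k).2))) % 7 = 6) := by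
    decide
  intro i k hik
  obtain ⟨h1, h2, h3, h4, h5⟩ := h i k hik
  exact ⟨_, _, h1, h2, h3, h4, not_sq_mod h5⟩

lemma progressions_ex : Progressions ex := by
  intro i
  fin_cases i
  · refine ⟨![5, 4, 2, 1], -1 / 30, 1 / 15, by norm_num, by decide, fun j => ?_⟩
    fin_cases j <;> simp [ex] <;> norm_num
  · refine ⟨![0, 5, 3, 2], -1 / 6, 5 / 36, by norm_num, by decide, fun j => ?_⟩
    fin_cases j <;> simp [ex] <;> norm_num
  · refine ⟨![1, 0, 4, 3], -1 / 4, 3 / 20, by norm_num, by decide, fun j => ?_⟩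
    fin_cases j <;> simp [ex] <;> norm_num
  · refine ⟨![2, 1, 5, 4], -1 / 5, 4 / 45, by norm_num, by decide, fun j => ?_⟩
    fin_cases j <;> simp [ex] <;> norm_num
  · refine ⟨![3, 2, 0, 5], -1 / 15, 1 / 60, by norm_num, by decide, fun j => ?_⟩
    fin_cases j <;> simp [ex] <;> norm_num
  · refine ⟨![4, 3, 1, 0], 1 / 60, 1 / 180, by norm_num, by decide, fun j => ?_⟩
    fin_cases j <;> simp [ex] <;> norm_num

theorem result (M₀ : ℕ) (hM₀ : 1 ≤ M₀)
    (hSha : ShaKilledBy (Pool.Agent.TH942.sw (-351) (1890 : ℚ)) M₀) :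
    (∀ (K : Type) [Fintype K] (e : K → ℤ), Function.Injective e → Even (Fintype.card K) →
      6 ≤ Fintype.card K → CrossRatio e → Progressions e → ∃ C : ℝ, ∀ X : ℕ, 2 ≤ X →
        ({d : ℤ | d.natAbs ≤ X ∧ Squarefree d ∧ ¬ LocalPointsAreRational e d}.ncard : ℝ) ≤
          C * X * (Real.log X) ^ (-(1 / 5) : ℝ)) ∧
    (Function.Injective ex ∧ CrossRatio ex ∧ Progressions ex) := by
  refine ⟨?_, by decide, crossRatio_ex, progressions_ex⟩
  · intro K _ e he hev hK hCR hPr
    classical
    obtain ⟨C, hC⟩ := Pool.Agent.W262.G3.fin2.{0, 0} Pool.Agent.W623.SecG.secloc2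
      Pool.Agent.W623.SecE.secglob K e he hev hK hCR
    refine ⟨C, fun X hX => le_trans ?_ (hC X hX)⟩
    have hfin : {d : ℤ | d.natAbs ≤ X ∧ Squarefree d ∧
        Pool.Agent.W623.SecG.Bad2.{0, 0} e d}.Finite := by
      refine (Finset.finite_toSet (Finset.Icc (-(X : ℤ)) X)).subset ?_
      rintro d ⟨hd1, -⟩
      rw [Finset.mem_coe, Finset.mem_Icc]
      omega
    have hsub : {d : ℤ | d.natAbs ≤ X ∧ Squarefree d ∧ ¬ LocalPointsAreRational e d} ⊆
        {d : ℤ | d.natAbs ≤ X ∧ Squarefree d ∧ Pool.Agent.W623.SecG.Bad2.{0, 0} e d} := by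
      rintro d ⟨hd1, hd2, hd3⟩
      refine ⟨hd1, hd2, ?_⟩
      by_contra hbad
      exact hd3 (local_points M₀ hM₀ hSha he hCR hPr hbad)
    exact_mod_cast Set.ncard_le_ncard hsub hfin

end Pool.Agent.Results.MP_e66f84_ag.SelmerSectionsOfTwists
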