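import Pool.Agent.TH377.Sup.SetR

/-!
# The section conjecture for 100% of all superelliptic curves over every finitely generated field

Let `k` be any field finitely generated over `ℚ`, that is, the fraction field of a domain `R` of
characteristic zero that is finitely generated as a ring.  Let `d ≥ 3`, and for
`(a, c₀, …, c_d) ∈ R^(d+2)` consider the curves

  `a yⁿ = c₀ + c₁ x + … + c_d x^d`,  `n ≥ 2` not coprime to `d`,

where all coefficients vary.  (If `n` and `d` are coprime, the curve has a rational point at
infinity.)  We prove that for all vectors `(a, c₀, …, c_d)` outside a set of density zero, for all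
these `n` at once, the curve has no point over `k`, and its fundamental group has no section, also
when any set of closed points of the curve is removed.  So 100% of these curves, and all smooth
curves over `k` that dominate one of them, satisfy the section conjecture; for `n = 2` these are the
hyperelliptic curves `a y² = f(x)` of a given genus `g ≥ 1`, `deg f = 2 g + 2`.  The set of the
exceptional vectors has density zero in a strong sense: for every `ε > 0` there is an ideal `I` of
`R` of finite index such that the exceptional vectors lie in at most `ε #(R/I)^(d+2)` residue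
classes modulo `I`.

The fundamental group is described through valuations.  Let `U` be a smooth geometrically connected
curve over `k` with function field `F`, let `Ω` be an algebraic closure of `F`, and let `F_U` be the
maximal extension of `F` inside `Ω` which is unramified over the closed points of `U`, that is, over
their local rings, which are valuation rings of `F`.  Then `π₁(U) = Gal(F_U/F)`, and the map
`π₁(U) → G_k` is the restriction of automorphisms to the algebraic closure of `k` in `Ω`.

Proof.  As in `Pool.Agent.Results.MP_e66f84_ag.FunctionFieldTwists` one finds a number field `L` and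
a homomorphism `P : R → L` such that for almost all primes `v` of `L` there is an embedding
`ψ : k → L_v` with `ψ(r) ≡ P(r)` modulo `v²` for all `r ∈ R`; it induces a discrete valuation on `k`
with finite residue field.  Let `v` be such a prime, not dividing 2.  Counting the elements of the
extension of degree `d` of the residue field of `v` that generate it, one finds that
`P(c₀) + … + P(c_d) x^d` is irreducible of degree `d` modulo `v` for at least `(N v - 1) (N v)^d / 2d`
of the classes of the coefficients modulo `v`, and `P(a)` has valuation one for `N v - 1` of the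
classes modulo `v²`.  So both conditions hold for a proportion of at least
`(1/4d) (1/N v - 1/(N v)²)` of all vectors.  As the sum of the `1/N v` diverges, and as the image of
`R` in `L` contains a multiple of `O_L`, almost all vectors satisfy them for some `v`.  For these
vectors and a prime number `ℓ` that divides `n` and `d`, the roots of the polynomial are permuted by
the Frobenius element of the valuation in one cycle of length `d`, which is divisible by `ℓ`, and
the curve has no section over `k`: for `ℓ = 2` this is the local theorem of
`Pool.Agent.Results.MP_2f3286_ag.QuadraticTwists`, for odd `ℓ` (where `v` may divide `ℓ`) it is the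
local theorem `Pool.Agent.TH120.Sec.local_odd`, which is based on the Kummer theory of the functions
`(x - θ)/(x - θ')`, where `θ, θ'` are roots of the polynomial.
-/

open Polynomial

namespace Pool.Agent.Results.MP_e66f84_ag.SuperellipticFamilies

universe u v w

section definitions

variable (k : Type u) (F : Type v) (Ω : Type w) [Field k] [Field F] [Field Ω] [Algebra k F]
  [Algebra F Ω] [Algebra k Ω]

/-- The inertia group of the valuation ring `W` of `Ω`, as a subgroup of `Gal(Ω/F)`: the
automorphisms of `Ω` over `F` that map `W` onto itself and act as the identity on its residue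
field. -/
noncomputable def inertia (W : ValuationSubring Ω) : Subgroup (Ω ≃ₐ[F] Ω) :=
  (W.inertiaSubgroup F).map (W.decompositionSubgroup F).subtype

/-- `F_U`, for a set `U` of valuation rings of `F`: the elements of `Ω` fixed by the inertia groups
of all valuation rings `W` of `Ω` with `W ∩ F ∈ U`.  If `Ω` is an algebraic closure of a field `F`
of characteristic zero, this is the maximal extension of `F` in `Ω` unramified over `U`. -/
noncomputable def unramified (U : Set (ValuationSubring F)) : IntermediateField F Ω :=
  ⨅ W : {W : ValuationSubring Ω // W.comap (algebraMap F Ω) ∈ U},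
    IntermediateField.fixedField (inertia F Ω W.1)

/-- The map `τ : M → M` acts as `σ : K → K` on the elements that the fields `K` and `M` have in
common when they are regarded as subfields of `Ω` through `i` and `j`. -/
def ActsAs {K M Ω : Type*} [Field K] [Field M] [Field Ω] (i : K →+* Ω) (j : M →+* Ω) (σ : K → K)
    (τ : M → M) : Prop :=
  ∀ c z, j z = i c → j (τ z) = i (σ c)

/-- Let `k ⊆ K ⊆ Ω` and `F ⊆ M ⊆ Ω` be fields.  A splitting of `Gal(M/F) → Gal(K/k)`: a continuous
homomorphism `s` from `Gal(K/k)` to `Gal(M/F)` such that `s(σ)` acts as `σ` on the elements of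
`K ∩ M`. -/
structure Splitting (K M : Type*) [Field K] [Field M] [Algebra k K] [Algebra F M] [Algebra K Ω]
    [Algebra M Ω] where
  /-- the homomorphism `Gal(K/k) → Gal(M/F)` -/
  toHom : (K ≃ₐ[k] K) →* (M ≃ₐ[F] M)
  cont : Continuous toHom
  compat : ∀ σ : K ≃ₐ[k] K, ActsAs (algebraMap K Ω) (algebraMap M Ω) σ (toHom σ)

/-- The sections of `π₁(U) = Gal(F_U/F) → G_k`: the continuous homomorphisms `s` from
`G_k = Gal(k̄/k)` to `Gal(F_U/F)`, where `k̄` is the algebraic closure of `k` in `Ω`, such that
`s(σ)` acts as `σ` on the elements of `k̄`. -/
def GaloisSection (U : Set (ValuationSubring F)) : Type w :=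
  Splitting k F Ω (algebraicClosure k Ω) (unramified F Ω U)

end definitions

/-- The smooth projective curve with the affine equation `a yⁿ = f(x)` has no point over `k`:
neither in the affine part nor at infinity. -/
def NoPoint {k : Type u} [Field k] (n : ℕ) (a : k) (f : k[X]) : Prop :=
  (¬ ∃ x y : k, a * y ^ n = f.eval x) ∧
    ¬ ∃ r : k, a * r ^ Nat.gcd n f.natDegree = f.leadingCoeff

/-- Let `F` be any field over `k` that contains a point `(x, y)` of the curve `a yⁿ = f(x)`, for
instance the function field of the curve, and let `Ω` be an algebraic closure of `F`.  Then for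
every set `U` of valuation rings of `F` over `k` there is no section of `π₁(U) → G_k`.  If `F` is the
function field of the curve, such `U` are given by the smooth projective curve and by all its open
subcurves. -/
def NoSection {k : Type u} [Field k] (n : ℕ) (a : k) (f : k[X]) : Prop :=
  ∀ (F : Type v) (Ω : Type w) [Field F] [Field Ω] [Algebra k F] [Algebra F Ω] [Algebra k Ω]
    [IsScalarTower k F Ω] [IsAlgClosure F Ω] (x y : F) (U : Set (ValuationSubring F)),
    algebraMap k F a * y ^ n = aeval x f → (∀ O ∈ U, ∀ c : k, algebraMap k F c ∈ O) →
      IsEmpty (GaloisSection k F Ω U)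

/-- The polynomial `c₁ + c₂ x + … + c_{d+1} x^d` over `k`, for a vector `(c₀, …, c_{d+1})` of elements
of `R`. -/
noncomputable def poly {R : Type} [CommRing R] (k : Type) [Field k] [Algebra R k] {d : ℕ}
    (c : Fin (d + 2) → R) : k[X] :=
  ∑ i : Fin (d + 1), C (algebraMap R k (c i.succ)) * X ^ (i : ℕ)

/-- The vectors `c = (a, c₀, …, c_d)` of elements of `R` that do not have the following property:
`a ≠ 0`, the polynomial `f = c₀ + … + c_d x^d` is irreducible of degree `d` over `k`, and for no
`n ≥ 1` which is not coprime to `d` the curve `a yⁿ = f(x)` over `k` has a point or a section. -/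
def Exceptional (R : Type) [CommRing R] (k : Type) [Field k] [Algebra R k] (d : ℕ) :
    Set (Fin (d + 2) → R) :=
  {c | ¬ (algebraMap R k (c 0) ≠ 0 ∧ (poly k c).natDegree = d ∧ Irreducible (poly k c) ∧
    ∀ n : ℕ, 0 < n → ¬ Nat.Coprime n d → NoPoint n (algebraMap R k (c 0)) (poly k c) ∧
      NoSection.{0, v, w} n (algebraMap R k (c 0)) (poly k c))}

/-- Density zero: for every `ε > 0` there is an ideal `I` of `R` of finite index such that `E` lies
in at most `ε #(R/I)ᴺ` residue classes modulo `I`. -/
def DensityZero {R : Type} [CommRing R] {N : ℕ} (E : Set (Fin N → R)) : Prop :=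
  ∀ ε : ℝ, 0 < ε → ∃ I : Ideal R, Finite (R ⧸ I) ∧
    (Set.ncard ((fun (t : Fin N → R) i => Ideal.Quotient.mk I (t i)) '' E) : ℝ) ≤
      ε * (Nat.card (R ⧸ I) : ℝ) ^ N

section proof

open Pool.Agent.TH377.Sup

lemma toSec {k : Type u} {F : Type v} {Ω : Type w} [Field k] [Field F] [Field Ω] [Algebra k F]
    [Algebra F Ω] [Algebra k Ω] (U : Set (ValuationSubring F))
    (h : IsEmpty (Pool.Agent.W620.SC.GSection k F Ω U)) : IsEmpty (GaloisSection k F Ω U) :=
  ⟨fun s => h.false ⟨s.toHom, s.cont, s.compat⟩⟩

lemma of_fine {k : Type u} [Field k] (l : ℕ) (a : k) (f : k[X])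
    (h : FineL.{u, v, w} l a f) (n : ℕ) (hn : l ∣ n) (hd : l ∣ f.natDegree) :
    NoPoint n a f ∧ NoSection.{u, v, w} n a f := by
  obtain ⟨h1, h2, h3⟩ := h
  obtain ⟨n', rfl⟩ := hn
  refine ⟨⟨?_, ?_⟩, ?_⟩
  · rintro ⟨x, y, hxy⟩
    apply h2 x (y ^ n')
    rw [← hxy, ← pow_mul, mul_comm n' l]
  · rintro ⟨r, hr⟩
    obtain ⟨e, he⟩ := Nat.dvd_gcd (Dvd.intro n' rfl : l ∣ l * n') hd
    apply h3 (r ^ e)
    rw [← hr, ← pow_mul, mul_comm e l, he]
  · intro F Ω _ _ _ _ _ _ _ x y U hxy hU
    have hcl : IsAlgClosed Ω := IsAlgClosure.isAlgClosed F
    have halg : Algebra.IsAlgebraic F Ω := IsAlgClosure.isAlgebraic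
    refine toSec U (h1 F Ω U hU x (y ^ n') ?_)
    rw [← hxy, ← pow_mul, mul_comm n' l]

end proof

/-- Let `R` be a domain of characteristic zero that is finitely generated as a ring, with fraction
field `k`; so `k` is any field finitely generated over `ℚ`.  Let `d ≥ 3`.  For all vectors
`(a, c₀, …, c_d)` of elements of `R` outside a set of density zero, the polynomial
`f = c₀ + … + c_d x^d` is irreducible of degree `d` over `k`, and for all `n ≥ 1` which are not
coprime to `d`, the smooth projective curve with the affine equation `a yⁿ = f(x)` has no point over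
`k`, and the fundamental groups of its open subcurves and of all smooth curves over `k` that dominate
it have no sections. -/
theorem result (R : Type) [CommRing R] [IsDomain R] [CharZero R] [Algebra.FiniteType ℤ R]
    (k : Type) [Field k] [Algebra R k] [IsFractionRing R k] (d : ℕ) (hd : 3 ≤ d) :
    DensityZero (Exceptional.{v, w} R k d) := by
  intro ε hε
  obtain ⟨I, hI, hle⟩ := Pool.Agent.TH377.Sup.density_all.{v, w} (R := R) (k := k) d hd ε hε
  refine ⟨I, hI, le_trans ?_ hle⟩
  have hsub : (Exceptional.{v, w} R k d : Set (Fin (d + 2) → R)) ⊆
      {c : Fin (d + 2) → R | ¬ Pool.Agent.TH377.Sup.Good.{v, w} k c} := by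
    intro c hc hgood
    obtain ⟨h1, h2, h3, h4⟩ := hgood
    apply hc
    have hdeg : (poly k c).natDegree = d := Pool.Agent.TH377.Sup.pol_natDegree _ h2
    refine ⟨h1, hdeg, h3, fun n hn hnd => ?_⟩
    obtain ⟨l, hl, hln, hld⟩ := Nat.Prime.not_coprime_iff_dvd.1 hnd
    exact of_fine l _ (poly k c) (h4 l hl hld) n hln (by rw [hdeg]; exact hld)
  exact_mod_cast Set.ncard_le_ncard (Set.image_mono hsub) (Set.toFinite _)

end Pool.Agent.Results.MP_e66f84_ag.SuperellipticFamilies
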